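import Pool.Agent.Helper35.PM.Defs

/-!
# Induced links through a connected set
-/

set_option autoImplicit false

namespace Pool.Agent.Helper92.PD

open Finset
open scoped Classical
open Pool.Agent.Helper35.PM (ConnIn)

variable {V : Type}

/-- An induced path `p 0 = z, p 1, …, p r, p (r+1) = z'` with all interior vertices in `I`. -/
structure IsLink (F : SimpleGraph V) (I : Finset V) (z z' : V) (r : ℕ) (p : ℕ → V) : Prop where
  first : p 0 = z
  last : p (r + 1) = z'
  mem : ∀ i, 0 < i → i ≤ r → p i ∈ I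
  adj : ∀ i j, i ≤ r + 1 → j ≤ r + 1 → (F.Adj (p i) (p j) ↔ (j = i + 1 ∨ i = j + 1))
  inj : ∀ i j, i ≤ r + 1 → j ≤ r + 1 → p i = p j → i = j

/-- A walk `p 0 = z, p 1, …, p r, p (r+1) = z'` with all interior vertices in `I`. -/
structure IsWk (F : SimpleGraph V) (I : Finset V) (z z' : V) (r : ℕ) (p : ℕ → V) : Prop where
  first : p 0 = z
  last : p (r + 1) = z'
  mem : ∀ i, 0 < i → i ≤ r → p i ∈ I
  adj : ∀ i, i ≤ r → F.Adj (p i) (p (i + 1))

theorem exists_wk_of_mem (F : SimpleGraph V) (I : Finset V) (hI : ConnIn F I) (z : V)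
    (h1 : ∃ v ∈ I, F.Adj z v) : ∀ v ∈ I, ∃ r p, IsWk F I z v r p := by
  obtain ⟨v0, hv0, hz0⟩ := h1
  set T : Finset V := I.filter (fun v => ∃ r p, IsWk F I z v r p) with hT
  have hTne : T.Nonempty := by
    refine ⟨v0, mem_filter.2 ⟨hv0, 0, fun i => if i = 0 then z else v0, ?_⟩⟩
    refine ⟨by simp, by simp, fun i h1 h2 => by omega, fun i hi => ?_⟩
    have : i = 0 := by omega
    subst this
    simpa using hz0
  by_contra hcon
  push Not at hcon
  obtain ⟨v, hv, hvn⟩ := hcon
  have hne : T ≠ I := by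
    intro h
    rw [← h] at hv
    obtain ⟨r, p, hp⟩ := (mem_filter.1 hv).2
    exact hvn r p hp
  obtain ⟨x, hx, y, hy, hxy⟩ := hI.2 T (filter_subset _ _) hTne hne
  obtain ⟨hxI, r, p, hp⟩ := mem_filter.1 hx
  rw [mem_sdiff] at hy
  refine hy.2 (mem_filter.2 ⟨hy.1, r + 1, fun i => if i ≤ r + 1 then p i else y, ?_⟩)
  refine ⟨by simp [hp.first], by simp, fun i h1 h2 => ?_, fun i hi => ?_⟩
  · rw [if_pos h2]
    rcases Nat.lt_or_ge r i with h | h
    · have : i = r + 1 := by omega
      rw [this, hp.last]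
      exact hxI
    · exact hp.mem i h1 h
  · rw [if_pos hi]
    rcases Nat.lt_or_ge r i with h | h
    · have h3 : i = r + 1 := by omega
      subst h3
      rw [if_neg (by omega), hp.last]
      exact hxy
    · rw [if_pos (by omega)]
      exact hp.adj i h

theorem exists_wk (F : SimpleGraph V) (I : Finset V) (hI : ConnIn F I) (z z' : V)
    (h1 : ∃ v ∈ I, F.Adj z v) (h2 : ∃ v ∈ I, F.Adj z' v) : ∃ r p, IsWk F I z z' r p := by
  obtain ⟨v, hv, hvz⟩ := h2
  obtain ⟨r, p, hp⟩ := exists_wk_of_mem F I hI z h1 v hv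
  refine ⟨r + 1, fun i => if i ≤ r + 1 then p i else z', ?_⟩
  refine ⟨by simp [hp.first], by simp, fun i h1 h2 => ?_, fun i hi => ?_⟩
  · rw [if_pos h2]
    rcases Nat.lt_or_ge r i with h | h
    · have : i = r + 1 := by omega
      rw [this, hp.last]
      exact hv
    · exact hp.mem i h1 h
  · rw [if_pos hi]
    rcases Nat.lt_or_ge r i with h | h
    · have h3 : i = r + 1 := by omega
      subst h3
      rw [if_neg (by omega), hp.last]
      exact hvz.symm
    · rw [if_pos (by omega)]
      exact hp.adj i h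

/-- A walk of minimal length is an induced path. -/
theorem isLink_of_minimal (F : SimpleGraph V) (I : Finset V) (z z' : V) (hz : z ∉ I) (hz' : z' ∉ I)
    (hne : z ≠ z') (r : ℕ) (p : ℕ → V) (hp : IsWk F I z z' r p)
    (hmin : ∀ r' p', IsWk F I z z' r' p' → r ≤ r') : IsLink F I z z' r p := by
  -- shortcuts of adjacent vertices
  have key : ∀ i j, i < j → j ≤ r + 1 → F.Adj (p i) (p j) → j = i + 1 := by
    intro i j hij hj hadj
    by_contra hcon
    have h2 : i + 2 ≤ j := by omega
    have h3 := hmin (r - (j - i - 1)) (fun k => if k ≤ i then p k else p (k + (j - i - 1))) ?_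
    · omega
    · refine ⟨by simp [hp.first], ?_, fun k hk1 hk2 => ?_, fun k hk => ?_⟩
      · have e1 : ¬ (r - (j - i - 1) + 1 ≤ i) := by omega
        rw [if_neg e1, show r - (j - i - 1) + 1 + (j - i - 1) = r + 1 by omega, hp.last]
      · by_cases hki : k ≤ i
        · rw [if_pos hki]
          exact hp.mem k hk1 (by omega)
        · rw [if_neg hki]
          exact hp.mem _ (by omega) (by omega)
      · by_cases hki : k + 1 ≤ i
        · rw [if_pos (by omega), if_pos hki]
          exact hp.adj k (by omega)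
        · by_cases hki' : k ≤ i
          · have : k = i := by omega
            subst this
            rw [if_pos le_rfl, if_neg (by omega), show k + 1 + (j - k - 1) = j by omega]
            exact hadj
          · rw [if_neg hki', if_neg hki,
              show k + 1 + (j - i - 1) = k + (j - i - 1) + 1 by omega]
            exact hp.adj _ (by omega)
  have key2 : ∀ i j, i < j → j ≤ r + 1 → p i ≠ p j := by
    intro i j hij hj heq
    rcases Nat.eq_zero_or_pos i with hi0 | hi0
    · subst hi0
      rw [hp.first] at heq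
      rcases Nat.lt_or_ge r j with h | h
      · have : j = r + 1 := by omega
        rw [this, hp.last] at heq
        exact hne heq
      · exact hz (heq ▸ hp.mem j (by omega) h)
    · rcases Nat.lt_or_ge r j with h | h
      · have h4 : j = r + 1 := by omega
        rw [h4, hp.last] at heq
        exact hz' (heq ▸ hp.mem i hi0 (by omega))
      · -- both are interior, use the neighbour `p (j+1)` of `p j = p i`
        have h5 := hp.adj j h
        rw [← heq] at h5
        have := key i (j + 1) (by omega) (by omega) h5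
        omega
  refine ⟨hp.first, hp.last, hp.mem, fun i j hi hj => ⟨fun h => ?_, fun h => ?_⟩,
    fun i j hi hj h => ?_⟩
  · rcases Nat.lt_trichotomy i j with h1 | h1 | h1
    · exact Or.inl (key i j h1 hj h)
    · subst h1
      exact absurd h (SimpleGraph.irrefl F)
    · exact Or.inr (key j i h1 hi h.symm)
  · rcases h with h | h
    · subst h
      exact hp.adj i (by omega)
    · subst h
      exact (hp.adj j (by omega)).symm
  · by_contra hcon
    rcases Nat.lt_or_gt_of_ne hcon with h1 | h1
    · exact key2 i j h1 hj h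
    · exact key2 j i h1 hi h.symm

/-- **Link lemma.** -/
theorem exists_isLink (F : SimpleGraph V) (I : Finset V) (hI : ConnIn F I) (z z' : V) (hz : z ∉ I)
    (hz' : z' ∉ I) (hne : z ≠ z') (h1 : ∃ v ∈ I, F.Adj z v) (h2 : ∃ v ∈ I, F.Adj z' v) :
    ∃ r p, IsLink F I z z' r p := by
  have hex : ∃ r, ∃ p, IsWk F I z z' r p := by
    obtain ⟨r, p, hp⟩ := exists_wk F I hI z z' h1 h2
    exact ⟨r, p, hp⟩
  obtain ⟨p, hp⟩ := Nat.find_spec hex
  exact ⟨Nat.find hex, p, isLink_of_minimal F I z z' hz hz' hne _ p hp fun r' p' h' =>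
    Nat.find_min' hex ⟨p', h'⟩⟩

theorem IsLink.symm {F : SimpleGraph V} {I : Finset V} {z z' : V} {r : ℕ} {p : ℕ → V}
    (h : IsLink F I z z' r p) : IsLink F I z' z r (fun i => p (r + 1 - i)) := by
  refine ⟨by simp [h.last], by simp [h.first], fun i h1 h2 => h.mem _ (by omega) (by omega),
    fun i j hi hj => ?_, fun i j hi hj he => ?_⟩
  · rw [h.adj _ _ (by omega) (by omega)]
    omega
  · have := h.inj _ _ (by omega) (by omega) he
    omega

/-- A link through a smaller set. -/
theorem IsLink.mono {F : SimpleGraph V} {I J : Finset V} {z z' : V} {r : ℕ} {p : ℕ → V}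
    (h : IsLink F I z z' r p) (hIJ : I ⊆ J) : IsLink F J z z' r p :=
  ⟨h.first, h.last, fun i h1 h2 => hIJ (h.mem i h1 h2), h.adj, h.inj⟩

/-- The least number of interior vertices of a link (`0` if there is no link). -/
noncomputable def lk (F : SimpleGraph V) (I : Finset V) (z z' : V) : ℕ :=
  sInf {r | ∃ p, IsLink F I z z' r p}

theorem lk_comm (F : SimpleGraph V) (I : Finset V) (z z' : V) : lk F I z z' = lk F I z' z := by
  unfold lk
  congr 1
  ext r
  exact ⟨fun ⟨p, hp⟩ => ⟨_, hp.symm⟩, fun ⟨p, hp⟩ => ⟨_, hp.symm⟩⟩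

theorem exists_isLink_lk (F : SimpleGraph V) (I : Finset V) (hI : ConnIn F I) (z z' : V)
    (hz : z ∉ I) (hz' : z' ∉ I) (hne : z ≠ z') (h1 : ∃ v ∈ I, F.Adj z v)
    (h2 : ∃ v ∈ I, F.Adj z' v) : ∃ p, IsLink F I z z' (lk F I z z') p :=
  Nat.sInf_mem (s := {r | ∃ p, IsLink F I z z' r p}) (exists_isLink F I hI z z' hz hz' hne h1 h2)

end Pool.Agent.Helper92.PD
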