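import Pool.Agent.Helper32.PD.Defs
import Pool.Agent.Helper92.PD.Path

/-!
# PD-2: paths through hubs
-/

set_option autoImplicit false

namespace Pool.Agent.Helper32.PD

open Finset
open scoped Classical
open Pool.Agent.Helper92.PD

variable {V : Type}

theorem ipath_of_isLink {F : SimpleGraph V} {I : Finset V} {y t : V} {r : ℕ} {p : ℕ → V}
    (h : IsLink F I y t r p) : HubPath F I y t ((List.range r).map fun i => p (i + 1)) := by
  have e : y :: (((List.range r).map fun i => p (i + 1)) ++ [t]) = (List.range (r + 2)).map p := by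
    rw [List.range_succ, List.range_succ_eq_map, List.map_append, List.map_cons, List.map_map,
      h.first, List.cons_append, List.map_singleton, h.last]
    rfl
  refine ⟨?_, ?_⟩
  · intro v hv
    obtain ⟨i, hi, rfl⟩ := List.mem_map.1 hv
    rw [List.mem_range] at hi
    exact h.mem (i + 1) (by omega) (by omega)
  · rw [e]
    constructor
    · rw [List.nodup_map_iff_inj_on List.nodup_range]
      intro i hi j hj hij
      rw [List.mem_range] at hi hj
      exact h.inj i j (by omega) (by omega) hij
    · intro i j hi hj
      simp only [List.length_map, List.length_range] at hi hj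
      simp only [List.getElem_map, List.getElem_range]
      exact h.adj i j (by omega) (by omega)

theorem exists_hubPath (F : SimpleGraph V) {I : Finset V} (hI : Conn F I) {y t : V} (hy : y ∉ I)
    (ht : t ∉ I) (hyt : y ≠ t) (hyI : ∃ v ∈ I, F.Adj y v) (htI : ∃ v ∈ I, F.Adj t v) :
    ∃ l, HubPath F I y t l := by
  obtain ⟨r, p, hp⟩ := exists_isLink F I hI y t hy ht hyt hyI htI
  exact ⟨_, ipath_of_isLink hp⟩

theorem hp_spec (F : SimpleGraph V) {I : Finset V} (hI : Conn F I) {y t : V} (hy : y ∉ I)
    (ht : t ∉ I) (hyt : y ≠ t) (hyI : ∃ v ∈ I, F.Adj y v) (htI : ∃ v ∈ I, F.Adj t v) :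
    HubPath F I y t (hp F I y t) := by
  have h := exists_hubPath F hI hy ht hyt hyI htI
  unfold hp
  rw [dif_pos h]
  exact h.choose_spec

end Pool.Agent.Helper32.PD
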