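import Pool.Agent.Helper39.PD.Sys1r
import Pool.Agent.Helper24.PD.Claw
import Pool.Agent.Helper12.PD.Link

/-!
# PD-10d: assembly of the coherent system
-/

set_option autoImplicit false

namespace Pool.Agent.Helper32.PD

open Finset
open scoped Classical

variable {V : Type}

/-- leaves of different hubs are different -/
theorem Hubs.leaf_ne {F : SimpleGraph V} {Λ : Type} {I Q : Λ → Finset V} {f : Λ → V → V}
    (h : Hubs F I Q f) {l l' : Λ} (hl : l ≠ l') {x x' : V} (hx : x ∈ Q l) (hx' : x' ∈ Q l') :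
    f l x ≠ f l' x' := by
  intro he
  obtain ⟨y, hy, hadj⟩ := h.leaf_adj l' x' hx'
  rw [← he] at hadj
  exact (h.leaf_anti l l' hl x hx y hy).2 hadj

/-- slots for the edges at every vertex -/
theorem exists_slots {ε ι : Type} [Fintype ε] (a : ε → ι)
    (ha : ∀ i, (univ.filter fun e => a e = i).card ≤ 3) :
    ∃ s : ε → Fin 3, ∀ e e', a e = a e' → s e = s e' → e = e' := by
  have h : ∀ i, Nonempty ({e // a e = i} ↪ Fin 3) := by
    intro i
    apply Function.Embedding.nonempty_of_card_le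
    rw [Fintype.card_fin, Fintype.card_subtype]
    exact ha i
  refine ⟨fun e => (h (a e)).some ⟨e, rfl⟩, fun e e' he hs => ?_⟩
  have key : ∀ i (hi : a e = i), (h (a e)).some ⟨e, rfl⟩ = (h i).some ⟨e, hi⟩ := by
    rintro _ rfl
    rfl
  have h2 : (h (a e')).some ⟨e, he⟩ = (h (a e')).some ⟨e', rfl⟩ := by
    rw [← key _ he]
    exact hs
  have := (h (a e')).some.injective h2
  simpa using this

/-- one claw for every `i ∈ s` -/
theorem exists_all_claws (F : SimpleGraph V) {Λ ι : Type} [Fintype ι] (I Q Qs : Λ → Finset V)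
    (f : Λ → V → V) (q r : ℕ) (ξ lam θ : ℝ) (n K : ℕ) (hn : 1 ≤ n) (hlam : 0 < lam) (hξ : 0 < ξ)
    (S : Sys1r F I Q Qs f q r ξ lam θ n)
    (hsmall : 4 * lam + (K + 5) * θ ≤ ξ / (2 * q)) (hK : 3 * Fintype.card ι ≤ K)
    (H : ι → Fin 3 → Λ) (hH : ∀ i κ j κ', H i κ = H j κ' → i = j ∧ κ = κ') (s : Finset ι) :
    ∃ (π : ι → Equiv.Perm (Fin 3)) (x : ι → Fin 3 → V),
      (∀ i ∈ s, (∀ κ, x i κ ∈ Qs (H i κ)) ∧
        F.Adj (f (H i (π i 0)) (x i (π i 0))) (f (H i (π i 1)) (x i (π i 1))) ∧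
        F.Adj (f (H i (π i 0)) (x i (π i 0))) (f (H i (π i 2)) (x i (π i 2))) ∧
        ¬ F.Adj (f (H i (π i 1)) (x i (π i 1))) (f (H i (π i 2)) (x i (π i 2)))) ∧
      ∀ i ∈ s, ∀ j ∈ s, i ≠ j → ∀ κ κ', f (H i κ) (x i κ) ≠ f (H j κ') (x j κ') ∧
        ¬ F.Adj (f (H i κ) (x i κ)) (f (H j κ') (x j κ')) := by
  induction s using Finset.induction_on with
  | empty =>
    by_cases hV : Nonempty V
    · exact ⟨fun _ => Equiv.refl _, fun _ _ => hV.some, by simp, by simp⟩
    · -- no vertices: the hubs are nonempty, so there is no index at all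
      have hΛ : IsEmpty ι := ⟨fun i => hV ⟨(S.sys.hubs.conn (H i 0)).1.choose⟩⟩
      exact ⟨fun _ => Equiv.refl _, fun i => hΛ.elim i, by simp, by simp⟩
  | insert i s his ih =>
    obtain ⟨π, x, h1, h2⟩ := ih
    set U : Finset (Λ × V) := s.biUnion (fun j => univ.image fun κ => (H j κ, x j κ)) with hU
    have hmem : ∀ u, u ∈ U ↔ ∃ j ∈ s, ∃ κ, (H j κ, x j κ) = u := by
      intro u
      simp [hU]
    have hUQ : ∀ u ∈ U, u.2 ∈ Q u.1 := by
      intro u hu
      obtain ⟨j, hj, κ, rfl⟩ := (hmem u).1 hu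
      exact S.sub _ ((h1 j hj).1 κ)
    have hUK : U.card ≤ K := by
      have h3 : U.card ≤ s.card * 3 := by
        apply Finset.card_biUnion_le_card_mul
        intro j _
        exact le_trans Finset.card_image_le (by simp)
      have h4 : s.card ≤ Fintype.card ι := Finset.card_le_univ s
      omega
    obtain ⟨π', x', h3, h4, h5, h6, h7⟩ := exists_claw F I Q Qs f q r ξ lam θ n K hn hlam hξ S hsmall
      U hUQ hUK (H i) (fun κ κ' h => (hH i κ i κ' h).2) (by
        intro u hu κ he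
        obtain ⟨j, hj, κ', rfl⟩ := (hmem u).1 hu
        have := (hH j κ' i κ he).1
        subst this
        exact his hj)
    refine ⟨Function.update π i π', Function.update x i x', ?_, ?_⟩
    · intro j hj
      rcases Finset.mem_insert.1 hj with rfl | hj
      · rw [Function.update_self, Function.update_self]
        exact ⟨h3, h4, h5, h6⟩
      · have hne : j ≠ i := fun e => his (e ▸ hj)
        rw [Function.update_of_ne hne, Function.update_of_ne hne]
        exact h1 j hj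
    · intro j hj k hk hjk κ κ'
      rcases Finset.mem_insert.1 hj with rfl | hj0
      · have hk' : k ∈ s := by
          rcases Finset.mem_insert.1 hk with rfl | h
          · exact absurd rfl hjk
          · exact h
        rw [Function.update_self, Function.update_of_ne (Ne.symm hjk)]
        exact h7 κ (H k κ', x k κ') ((hmem _).2 ⟨k, hk', κ', rfl⟩)
      · rcases Finset.mem_insert.1 hk with rfl | hk
        · have hj' : j ∈ s := by
            rcases Finset.mem_insert.1 hj with h | h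
            · exact absurd h hjk
            · exact h
          rw [Function.update_self, Function.update_of_ne hjk]
          have h8 := h7 κ' (H j κ, x j κ) ((hmem _).2 ⟨j, hj', κ, rfl⟩)
          exact ⟨h8.1.symm, fun h => h8.2 h.symm⟩
        · have hne : j ≠ i := fun e => his (e ▸ hj0)
          have hne' : k ≠ i := fun e => his (e ▸ hk)
          rw [Function.update_of_ne hne, Function.update_of_ne hne']
          exact h2 j hj0 k hk hjk κ κ'

/-- one link for every `e ∈ t` -/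
theorem exists_all_links (F : SimpleGraph V) {Λ ε : Type} [Fintype ε] (I Q Qs : Λ → Finset V)
    (f : Λ → V → V) (q r : ℕ) (hq : q = 2 ∨ q = 3) (hr : r < q) (ξ lam θ : ℝ) (n K : ℕ)
    (hn : 1 ≤ n) (hlam : 0 < lam) (S : Sys1r F I Q Qs f q r ξ lam θ n)
    (hsmall : 4 * lam + (K + 50) * θ ≤ ξ / (2 * q)) (U₀ : Finset (Λ × V))
    (hU₀ : ∀ u ∈ U₀, u.2 ∈ Q u.1) (hK : U₀.card + 50 * Fintype.card ε ≤ K)
    (h h' : ε → Λ) (hh : Function.Injective h) (hh' : Function.Injective h')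
    (hne : ∀ e e', h e ≠ h' e') (x x' : ε → V) (hx : ∀ e, x e ∈ Qs (h e))
    (hx' : ∀ e, x' e ∈ Qs (h' e)) (hxU : ∀ e, (h e, x e) ∈ U₀) (hxU' : ∀ e, (h' e, x' e) ∈ U₀)
    (hxx : ∀ e, ¬ F.Adj (f (h e) (x e)) (f (h' e) (x' e)))
    (hone : ∀ e, ∀ u ∈ U₀, u.1 = h e → u.2 = x e)
    (hone' : ∀ e, ∀ u ∈ U₀, u.1 = h' e → u.2 = x' e)
    (G : ε → Fin 9 → Λ) (hG : ∀ e j e' j', G e j = G e' j' → e = e' ∧ j = j')
    (hfresh : ∀ u ∈ U₀, ∀ e j, u.1 ≠ G e j) (hGh : ∀ e j e', G e j ≠ h e' ∧ G e j ≠ h' e')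
    (τ : ε → ℕ) (t : Finset ε) :
    ∃ (B : ε → List V) (U' : ε → Finset (Λ × V)),
      (∀ e ∈ t, (U' e).card ≤ 50 ∧ (B e).length % q = τ e % q ∧
        IPath F (f (h e) (x e) :: (B e ++ [f (h' e) (x' e)])) ∧
        (∀ v ∈ B e, (∃ u ∈ U' e, v = f u.1 u.2) ∨ v ∈ I (h e) ∨ v ∈ I (h' e) ∨
          ∃ j, v ∈ I (G e j)) ∧
        (∀ u ∈ U' e, u.2 ∈ Q u.1 ∧ (u.1 = h e ∨ u.1 = h' e ∨ ∃ j, u.1 = G e j)) ∧
        ∀ u' ∈ U' e, ∀ u ∈ U₀, u'.1 ≠ u.1 →
          f u'.1 u'.2 ≠ f u.1 u.2 ∧ ¬ F.Adj (f u'.1 u'.2) (f u.1 u.2)) ∧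
      ∀ e ∈ t, ∀ e' ∈ t, e ≠ e' → ∀ u ∈ U' e, ∀ u' ∈ U' e',
        f u.1 u.2 ≠ f u'.1 u'.2 ∧ ¬ F.Adj (f u.1 u.2) (f u'.1 u'.2) := by
  induction t using Finset.induction_on with
  | empty => exact ⟨fun _ => [], fun _ => ∅, by simp, by simp⟩
  | insert e t het ih =>
    obtain ⟨B, U', h1, h2⟩ := ih
    set U : Finset (Λ × V) := U₀ ∪ t.biUnion U' with hU
    have hmem : ∀ u, u ∈ U ↔ (u ∈ U₀ ∨ ∃ j ∈ t, u ∈ U' j) := by
      intro u
      simp [hU]
    have hUQ : ∀ u ∈ U, u.2 ∈ Q u.1 := by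
      intro u hu
      rcases (hmem u).1 hu with hu | ⟨j, hj, hu⟩
      · exact hU₀ u hu
      · exact ((h1 j hj).2.2.2.2.1 u hu).1
    have hUK : U.card ≤ K := by
      have h3 : (t.biUnion U').card ≤ t.card * 50 := by
        apply Finset.card_biUnion_le_card_mul
        intro j hj
        exact (h1 j hj).1
      have h4 : t.card ≤ Fintype.card ε := Finset.card_le_univ t
      have h5 := Finset.card_union_le U₀ (t.biUnion U')
      rw [← hU] at h5
      omega
    -- the hubs used by an earlier link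
    have hused : ∀ j ∈ t, ∀ u ∈ U' j, u.1 ≠ h e ∧ u.1 ≠ h' e ∧ ∀ k, u.1 ≠ G e k := by
      intro j hj u hu
      have hje : j ≠ e := fun he => het (he ▸ hj)
      rcases ((h1 j hj).2.2.2.2.1 u hu).2 with h3 | h3 | ⟨k, h3⟩
      · rw [h3]
        exact ⟨fun he => hje (hh he), hne j e, fun k => ((hGh e k j).1).symm⟩
      · rw [h3]
        exact ⟨(hne e j).symm, fun he => hje (hh' he), fun k => ((hGh e k j).2).symm⟩
      · rw [h3]
        exact ⟨(hGh j k e).1, (hGh j k e).2, fun k' he => hje (hG j k e k' he).1⟩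
    obtain ⟨B', U1, h3, h4, h5, h6, h7, h8⟩ := exists_link F I Q Qs f q r hq hr ξ lam θ n K hn hlam
      S hsmall U hUQ hUK (h e) (h' e) (hne e e) (x e) (x' e) (hx e) (hx' e)
      ((hmem _).2 (Or.inl (hxU e))) ((hmem _).2 (Or.inl (hxU' e))) (hxx e)
      (by
        intro u hu he
        rcases (hmem u).1 hu with hu | ⟨j, hj, hu⟩
        · exact hone e u hu he
        · exact absurd he (hused j hj u hu).1)
      (by
        intro u hu he
        rcases (hmem u).1 hu with hu | ⟨j, hj, hu⟩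
        · exact hone' e u hu he
        · exact absurd he (hused j hj u hu).2.1)
      (G e) (fun k k' hk => (hG e k e k' hk).2)
      (by
        intro u hu k
        rcases (hmem u).1 hu with hu | ⟨j, hj, hu⟩
        · exact hfresh u hu e k
        · exact (hused j hj u hu).2.2 k)
      (fun k => hGh e k e) (τ e)
    have hnewU : ∀ j ∈ t, ∀ u ∈ U' j, ∀ u' ∈ U1, u'.1 ≠ u.1 := by
      intro j hj u hu u' hu' he
      rcases (h7 u' hu').2 with h9 | h9 | ⟨k, h9⟩
      · exact (hused j hj u hu).1 (he ▸ h9)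
      · exact (hused j hj u hu).2.1 (he ▸ h9)
      · exact (hused j hj u hu).2.2 k (he ▸ h9)
    refine ⟨Function.update B e B', Function.update U' e U1, ?_, ?_⟩
    · intro j hj
      rcases Finset.mem_insert.1 hj with rfl | hj
      · rw [Function.update_self, Function.update_self]
        refine ⟨h3, h4, h5, h6, h7, fun u' hu' u hu hne' => h8 u' hu' u ((hmem _).2 (Or.inl hu))
          hne'⟩
      · have hje : j ≠ e := fun he => het (he ▸ hj)
        rw [Function.update_of_ne hje, Function.update_of_ne hje]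
        exact h1 j hj
    · intro j hj k hk hjk u hu u' hu'
      rcases Finset.mem_insert.1 hj with rfl | hj0
      · have hk' : k ∈ t := by
          rcases Finset.mem_insert.1 hk with rfl | h
          · exact absurd rfl hjk
          · exact h
        rw [Function.update_self] at hu
        rw [Function.update_of_ne (Ne.symm hjk)] at hu'
        exact h8 u hu u' ((hmem _).2 (Or.inr ⟨k, hk', hu'⟩)) (hnewU k hk' u' hu' u hu)
      · rcases Finset.mem_insert.1 hk with rfl | hk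
        · have hj' : j ∈ t := by
            rcases Finset.mem_insert.1 hj with h | h
            · exact absurd h hjk
            · exact h
          rw [Function.update_self] at hu'
          rw [Function.update_of_ne hjk] at hu
          have h9 := h8 u' hu' u ((hmem _).2 (Or.inr ⟨j, hj', hu⟩)) (hnewU j hj' u hu u' hu')
          exact ⟨h9.1.symm, fun hh => h9.2 hh.symm⟩
        · have hje : j ≠ e := fun he => het (he ▸ hj0)
          have hke : k ≠ e := fun he => het (he ▸ hk)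
          rw [Function.update_of_ne hje] at hu
          rw [Function.update_of_ne hke] at hu'
          exact h2 j hj0 k hk hjk u hu u' hu'

theorem Sys1.reindex {F : SimpleGraph V} {Λ Λ' : Type} {I Q : Λ → Finset V} {f : Λ → V → V}
    {ξ lam θ : ℝ} {n : ℕ} (S : Sys1 F I Q f ξ lam θ n) (g : Λ' → Λ) (hg : Function.Injective g) :
    Sys1 F (fun l => I (g l)) (fun l => Q (g l)) (fun l => f (g l)) ξ lam θ n where
  hubs :=
    { conn := fun l => S.hubs.conn (g l)
      hub_anti := fun l l' hl => S.hubs.hub_anti _ _ (hg.ne hl)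
      leaf_not := fun l => S.hubs.leaf_not (g l)
      leaf_adj := fun l => S.hubs.leaf_adj (g l)
      leaf_anti := fun l l' hl => S.hubs.leaf_anti _ _ (hg.ne hl) }
  size := fun l => S.size (g l)
  sparse := fun l l' hl => S.sparse _ _ (hg.ne hl)
  single := fun l => S.single (g l)
  coh := fun l l' hl => S.coh _ _ (hg.ne hl)

theorem Sys1r.reindex {F : SimpleGraph V} {Λ Λ' : Type} {I Q Qs : Λ → Finset V} {f : Λ → V → V}
    {q r : ℕ} {ξ lam θ : ℝ} {n : ℕ} (S : Sys1r F I Q Qs f q r ξ lam θ n) (g : Λ' → Λ)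
    (hg : Function.Injective g) :
    Sys1r F (fun l => I (g l)) (fun l => Q (g l)) (fun l => Qs (g l)) (fun l => f (g l)) q r ξ lam
      θ n where
  sys := S.sys.reindex g hg
  sub := fun l => S.sub (g l)
  size := fun l => S.size (g l)
  pop := fun l => S.pop (g l)

/-- the interior list of a leg -/
noncomputable def pre (s : Fin 3) (v : V) : List V := if s = 0 then [] else [v]

theorem mem_pre {s : Fin 3} {v w : V} : w ∈ pre s v ↔ s ≠ 0 ∧ w = v := by
  unfold pre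
  split_ifs with h
  · simp [h]
  · simp [h]

theorem length_pre (s : Fin 3) (v : V) : (pre s v).length ≤ 1 := by
  unfold pre
  split_ifs <;> simp

/-- put the centre `c` in front of a path that starts at the leg `z` -/
theorem ipath_front {F : SimpleGraph V} {s : Fin 3} {c z : V} {L : List V}
    (h : IPath F (z :: L)) (h0 : s = 0 → c = z) (h1 : s ≠ 0 → F.Adj c z)
    (ha : s ≠ 0 → AntiL F [c] L) : IPath F (c :: (pre s z ++ L)) := by
  unfold pre
  split_ifs with hs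
  · rw [h0 hs]
    simpa using h
  · have := ipath_glue (l := [c]) (v := z) (l' := L) (by simpa using ipath_pair F (h1 hs)) h (ha hs)
    simpa using this

theorem ipath_back {F : SimpleGraph V} {s : Fin 3} {c z : V} {L : List V}
    (h : IPath F (L ++ [z])) (h0 : s = 0 → c = z) (h1 : s ≠ 0 → F.Adj c z)
    (ha : s ≠ 0 → AntiL F L [c]) : IPath F (L ++ (pre s z ++ [c])) := by
  unfold pre
  split_ifs with hs
  · rw [h0 hs]
    simpa using h
  · have := ipath_glue (l := L) (v := z) (l' := [c]) h (ipath_pair F (h1 hs).symm) (ha hs)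
    simpa using this

theorem W1_core {ι₀ ι₁ ε : Type} [Fintype ι₀] [Fintype ι₁] [Fintype ε] (a : ε → ι₀) (b : ε → ι₁)
    (ha : ∀ i, (univ.filter fun e => a e = i).card ≤ 3)
    (hb : ∀ i, (univ.filter fun e => b e = i).card ≤ 3) (q : ℕ) (hq : q = 2 ∨ q = 3)
    (F : SimpleGraph V) (I Q Qs : (ι₀ ⊕ ι₁) × Fin 3 ⊕ ε × Fin 9 → Finset V)
    (f : (ι₀ ⊕ ι₁) × Fin 3 ⊕ ε × Fin 9 → V → V) (r : ℕ) (hr : r < q) (ξ lam θ : ℝ) (n K : ℕ)
    (hn : 1 ≤ n) (hlam : 0 < lam) (hξ : 0 < ξ) (S : Sys1r F I Q Qs f q r ξ lam θ n)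
    (hsmall1 : 4 * lam + (K + 5) * θ ≤ ξ / (2 * q))
    (hsmall2 : 4 * lam + (K + 50) * θ ≤ ξ / (2 * q))
    (hK : 3 * Fintype.card (ι₀ ⊕ ι₁) + 50 * Fintype.card ε ≤ K) : Found F a b q K I := by
  obtain ⟨s₀, hs₀⟩ := exists_slots a ha
  obtain ⟨s₁, hs₁⟩ := exists_slots b hb
  set H : (ι₀ ⊕ ι₁) → Fin 3 → (ι₀ ⊕ ι₁) × Fin 3 ⊕ ε × Fin 9 := fun i κ => Sum.inl (i, κ) with hH
  set G : ε → Fin 9 → (ι₀ ⊕ ι₁) × Fin 3 ⊕ ε × Fin 9 := fun e j => Sum.inr (e, j) with hG
  have hHinj : ∀ i κ j κ', H i κ = H j κ' → i = j ∧ κ = κ' := by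
    intro i κ j κ' h
    simpa [hH] using h
  have hGinj : ∀ e j e' j', G e j = G e' j' → e = e' ∧ j = j' := by
    intro e j e' j' h
    simpa [hG] using h
  have hHG : ∀ i κ e j, H i κ ≠ G e j := by
    intro i κ e j h
    simp [hH, hG] at h
  obtain ⟨π, x, hclaw, hfar⟩ := exists_all_claws F I Q Qs f q r ξ lam θ n K hn hlam hξ S hsmall1
    (by omega) H hHinj univ
  -- the references
  set R : (ι₀ ⊕ ι₁) → Fin 3 → V := fun i s => f (H i (π i s)) (x i (π i s)) with hR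
  have hxQs : ∀ i κ, x i κ ∈ Qs (H i κ) := fun i κ => (hclaw i (mem_univ _)).1 κ
  have hxQ : ∀ i κ, x i κ ∈ Q (H i κ) := fun i κ => S.sub _ (hxQs i κ)
  have hRR : ∀ i j, i ≠ j → ∀ s s', R i s ≠ R j s' ∧ ¬ F.Adj (R i s) (R j s') :=
    fun i j hij s s' => hfar i (mem_univ _) j (mem_univ _) hij _ _
  have hR0 : ∀ i s, s ≠ 0 → F.Adj (R i 0) (R i s) := by
    intro i s hs
    obtain ⟨_, h1, h2, _⟩ := hclaw i (mem_univ _)
    have : s = 1 ∨ s = 2 := by
      fin_cases s <;> simp at hs ⊢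
    rcases this with rfl | rfl
    · exact h1
    · exact h2
  have hR12 : ∀ i s s', s ≠ 0 → s' ≠ 0 → s ≠ s' → R i s ≠ R i s' ∧ ¬ F.Adj (R i s) (R i s') := by
    intro i s s' hs hs' hss
    obtain ⟨_, _, _, h3⟩ := hclaw i (mem_univ _)
    have hne : R i 1 ≠ R i 2 := S.sys.hubs.leaf_ne (fun h => by
      have := (π i).injective (hHinj _ _ _ _ h).2
      simp at this) (hxQ i _) (hxQ i _)
    have hcase : (s = 1 ∧ s' = 2) ∨ (s = 2 ∧ s' = 1) := by
      fin_cases s <;> fin_cases s' <;> simp at hs hs' hss ⊢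
    rcases hcase with ⟨rfl, rfl⟩ | ⟨rfl, rfl⟩
    · exact ⟨hne, h3⟩
    · exact ⟨hne.symm, fun h => h3 h.symm⟩
  -- the tokens of the claws
  set U₀ : Finset (((ι₀ ⊕ ι₁) × Fin 3 ⊕ ε × Fin 9) × V) :=
    univ.image (fun p : (ι₀ ⊕ ι₁) × Fin 3 => (H p.1 p.2, x p.1 p.2)) with hU₀
  have hmemU : ∀ u, u ∈ U₀ ↔ ∃ i κ, (H i κ, x i κ) = u := by
    intro u
    rw [hU₀, Finset.mem_image]
    constructor
    · rintro ⟨p, _, hp⟩
      exact ⟨p.1, p.2, hp⟩
    · rintro ⟨i, κ, h⟩
      exact ⟨(i, κ), mem_univ _, h⟩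
  have hU₀K : U₀.card ≤ 3 * Fintype.card (ι₀ ⊕ ι₁) := by
    refine le_trans Finset.card_image_le ?_
    rw [Finset.card_univ, Fintype.card_prod, Fintype.card_fin]
    omega
  set h : ε → (ι₀ ⊕ ι₁) × Fin 3 ⊕ ε × Fin 9 :=
    fun e => H (Sum.inl (a e)) (π (Sum.inl (a e)) (s₀ e)) with hh
  set h' : ε → (ι₀ ⊕ ι₁) × Fin 3 ⊕ ε × Fin 9 :=
    fun e => H (Sum.inr (b e)) (π (Sum.inr (b e)) (s₁ e)) with hh'
  have hinj : ∀ e i s, H i (π i s) = h e → i = Sum.inl (a e) ∧ s = s₀ e := by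
    intro e i s he
    obtain ⟨h1, h2⟩ := hHinj _ _ _ _ he
    subst h1
    exact ⟨rfl, (π _).injective h2⟩
  have hinj' : ∀ e i s, H i (π i s) = h' e → i = Sum.inr (b e) ∧ s = s₁ e := by
    intro e i s he
    obtain ⟨h1, h2⟩ := hHinj _ _ _ _ he
    subst h1
    exact ⟨rfl, (π _).injective h2⟩
  obtain ⟨B, U', hB, hU'⟩ := exists_all_links F I Q Qs f q r hq hr ξ lam θ n K hn hlam S hsmall2 U₀
    (by
      intro u hu
      obtain ⟨i, κ, rfl⟩ := (hmemU u).1 hu
      exact hxQ i κ)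
    (by omega) h h'
    (by
      intro e e' he
      obtain ⟨h1, h2⟩ := hinj e' _ _ he
      exact hs₀ e e' (Sum.inl.inj h1) h2)
    (by
      intro e e' he
      obtain ⟨h1, h2⟩ := hinj' e' _ _ he
      exact hs₁ e e' (Sum.inr.inj h1) h2)
    (by
      intro e e' he
      obtain ⟨h1, _⟩ := hinj' e' _ _ he
      cases h1)
    (fun e => x (Sum.inl (a e)) (π (Sum.inl (a e)) (s₀ e)))
    (fun e => x (Sum.inr (b e)) (π (Sum.inr (b e)) (s₁ e)))
    (fun e => hxQs _ _) (fun e => hxQs _ _)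
    (fun e => (hmemU _).2 ⟨_, _, rfl⟩) (fun e => (hmemU _).2 ⟨_, _, rfl⟩)
    (fun e => (hRR (Sum.inl (a e)) (Sum.inr (b e)) (by simp) (s₀ e) (s₁ e)).2)
    (by
      intro e u hu he
      obtain ⟨i, κ, rfl⟩ := (hmemU u).1 hu
      obtain ⟨h1, h2⟩ := hHinj _ _ _ _ he
      subst h1
      subst h2
      rfl)
    (by
      intro e u hu he
      obtain ⟨i, κ, rfl⟩ := (hmemU u).1 hu
      obtain ⟨h1, h2⟩ := hHinj _ _ _ _ he
      subst h1
      subst h2
      rfl)
    G hGinj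
    (by
      intro u hu e j
      obtain ⟨i, κ, rfl⟩ := (hmemU u).1 hu
      exact hHG i κ e j)
    (fun e j e' => ⟨(hHG _ _ _ _).symm, (hHG _ _ _ _).symm⟩)
    (fun e => 2 * q - (if s₀ e = 0 then 0 else 1) - (if s₁ e = 0 then 0 else 1)) univ
  -- links against references
  have hBR : ∀ e i s, H i (π i s) ≠ h e → H i (π i s) ≠ h' e → ∀ v ∈ B e,
      R i s ≠ v ∧ ¬ F.Adj (R i s) v := by
    intro e i s h1 h2 v hv
    obtain ⟨_, _, _, h3, h4, h5⟩ := hB e (mem_univ _)
    rcases h3 v hv with ⟨u, hu, rfl⟩ | h3 | h3 | ⟨j, h3⟩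
    · have h6 : u.1 ≠ H i (π i s) := by
        intro h7
        rcases (h4 u hu).2 with h8 | h8 | ⟨j, h8⟩
        · exact h1 (h7 ▸ h8)
        · exact h2 (h7 ▸ h8)
        · exact hHG i (π i s) e j (h7 ▸ h8)
      have h7 := h5 u hu (H i (π i s), x i (π i s)) ((hmemU _).2 ⟨_, _, rfl⟩) h6
      exact ⟨h7.1.symm, fun h => h7.2 h.symm⟩
    · exact S.sys.hubs.leaf_anti _ _ h1 _ (hxQ _ _) v h3
    · exact S.sys.hubs.leaf_anti _ _ h2 _ (hxQ _ _) v h3
    · exact S.sys.hubs.leaf_anti _ _ (hHG _ _ _ _) _ (hxQ _ _) v h3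
  -- links against links
  have hBB : ∀ e e', e ≠ e' → AntiL F (B e) (B e') := by
    intro e e' hee v hv w hw
    obtain ⟨_, _, _, h3, h4, h5⟩ := hB e (mem_univ _)
    obtain ⟨_, _, _, k3, k4, k5⟩ := hB e' (mem_univ _)
    -- the hubs of the two links
    have hdis : ∀ l l', (l = h e ∨ l = h' e ∨ ∃ j, l = G e j) →
        (l' = h e' ∨ l' = h' e' ∨ ∃ j, l' = G e' j) → l ≠ l' := by
      rintro l l' h6 k6 rfl
      rcases h6 with rfl | rfl | ⟨j, rfl⟩
      · rcases k6 with k6 | k6 | ⟨j, k6⟩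
        · obtain ⟨h7, h8⟩ := hinj e' _ _ k6
          exact hee (hs₀ e e' (Sum.inl.inj h7) h8)
        · cases (hinj' e' _ _ k6).1
        · exact hHG _ _ _ _ k6
      · rcases k6 with k6 | k6 | ⟨j, k6⟩
        · cases (hinj e' _ _ k6).1
        · obtain ⟨h7, h8⟩ := hinj' e' _ _ k6
          exact hee (hs₁ e e' (Sum.inr.inj h7) h8)
        · exact hHG _ _ _ _ k6
      · rcases k6 with k6 | k6 | ⟨j', k6⟩
        · exact hHG _ _ _ _ k6.symm
        · exact hHG _ _ _ _ k6.symm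
        · exact hee (hGinj _ _ _ _ k6).1
    have h3' : (∃ u ∈ U' e, v = f u.1 u.2) ∨ ∃ l, (l = h e ∨ l = h' e ∨ ∃ j, l = G e j) ∧
        v ∈ I l := by
      rcases h3 v hv with h | h | h | ⟨j, h⟩
      · exact Or.inl h
      · exact Or.inr ⟨_, Or.inl rfl, h⟩
      · exact Or.inr ⟨_, Or.inr (Or.inl rfl), h⟩
      · exact Or.inr ⟨_, Or.inr (Or.inr ⟨j, rfl⟩), h⟩
    have k3' : (∃ u ∈ U' e', w = f u.1 u.2) ∨ ∃ l, (l = h e' ∨ l = h' e' ∨ ∃ j, l = G e' j) ∧
        w ∈ I l := by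
      rcases k3 w hw with h | h | h | ⟨j, h⟩
      · exact Or.inl h
      · exact Or.inr ⟨_, Or.inl rfl, h⟩
      · exact Or.inr ⟨_, Or.inr (Or.inl rfl), h⟩
      · exact Or.inr ⟨_, Or.inr (Or.inr ⟨j, rfl⟩), h⟩
    rcases h3' with ⟨u, hu, rfl⟩ | ⟨l, hl, hvl⟩ <;> rcases k3' with ⟨u', hu', rfl⟩ | ⟨l', hl', hwl⟩
    · exact hU' e (mem_univ _) e' (mem_univ _) hee u hu u' hu'
    · exact S.sys.hubs.leaf_anti _ _ (hdis _ _ (h4 u hu).2 hl') _ (h4 u hu).1 w hwl
    · have := S.sys.hubs.leaf_anti _ _ (hdis _ _ hl (k4 u' hu').2).symm _ (k4 u' hu').1 v hvl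
      exact ⟨this.1.symm, fun h => this.2 h.symm⟩
    · exact S.sys.hubs.hub_anti _ _ (hdis _ _ hl hl') v hvl w hwl
  -- membership in the interior lists
  set p : ε → List V := fun e => pre (s₀ e) (R (Sum.inl (a e)) (s₀ e)) ++
    (B e ++ pre (s₁ e) (R (Sum.inr (b e)) (s₁ e))) with hp
  have hmemp : ∀ e v, v ∈ p e → (s₀ e ≠ 0 ∧ v = R (Sum.inl (a e)) (s₀ e)) ∨ v ∈ B e ∨
      (s₁ e ≠ 0 ∧ v = R (Sum.inr (b e)) (s₁ e)) := by
    intro e v hv
    simpa only [hp, List.mem_append, mem_pre] using hv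
  -- centres against the interior lists
  have hcent : ∀ e i, i ≠ Sum.inl (a e) → i ≠ Sum.inr (b e) → AntiL F [R i 0] (p e) := by
    intro e i h1 h2 c hc v hv
    rw [List.mem_singleton] at hc
    subst hc
    rcases hmemp e v hv with ⟨_, rfl⟩ | hv | ⟨_, rfl⟩
    · exact hRR _ _ h1 _ _
    · exact hBR e i 0 (fun h => h1 (hinj e _ _ h).1) (fun h => h2 (hinj' e _ _ h).1) v hv
    · exact hRR _ _ h2 _ _
  refine ⟨0, fun i => R (Sum.inl i) 0, fun i => R (Sum.inr i) 0, p,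
    (U₀ ∪ univ.biUnion U').image (fun u => f u.1 u.2), by omega, by omega, ?_, ?_, ?_, ?_, ?_⟩
  · refine ⟨?_, ?_, ?_, ?_, ?_, ?_, ?_, ?_, ?_, ?_, ?_⟩
    · intro i j hij
      by_contra hne
      exact (hRR (Sum.inl i) (Sum.inl j) (fun h => hne (Sum.inl.inj h)) 0 0).1 hij
    · intro i j hij
      by_contra hne
      exact (hRR (Sum.inr i) (Sum.inr j) (fun h => hne (Sum.inr.inj h)) 0 0).1 hij
    · intro i j
      exact (hRR (Sum.inl i) (Sum.inr j) (by simp) 0 0).1
    · intro i j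
      by_cases hne : i = j
      · subst hne
        exact SimpleGraph.irrefl F
      · exact (hRR (Sum.inl i) (Sum.inl j) (fun h => hne (Sum.inl.inj h)) 0 0).2
    · intro i j
      by_cases hne : i = j
      · subst hne
        exact SimpleGraph.irrefl F
      · exact (hRR (Sum.inr i) (Sum.inr j) (fun h => hne (Sum.inr.inj h)) 0 0).2
    · intro i j
      exact (hRR (Sum.inl i) (Sum.inr j) (by simp) 0 0).2
    · -- the path
      intro e
      obtain ⟨_, _, hpath, _⟩ := hB e (mem_univ _)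
      have hpath' : IPath F (R (Sum.inl (a e)) (s₀ e) :: (B e ++ [R (Sum.inr (b e)) (s₁ e)])) :=
        hpath
      have h1 := ipath_front (s := s₀ e) (c := R (Sum.inl (a e)) 0) hpath'
        (fun h => by rw [h]) (fun h => hR0 _ _ h) (fun h => by
          intro c hc v hv
          rw [List.mem_singleton] at hc
          subst hc
          rw [List.mem_append, List.mem_singleton] at hv
          rcases hv with hv | rfl
          · exact hBR e _ 0 (fun hh => h (hinj e _ _ hh).2.symm)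
              (fun hh => by cases (hinj' e _ _ hh).1) v hv
          · exact hRR _ _ (by simp) _ _)
      have h2 : R (Sum.inl (a e)) 0 :: (pre (s₀ e) (R (Sum.inl (a e)) (s₀ e)) ++
          (B e ++ [R (Sum.inr (b e)) (s₁ e)])) =
          (R (Sum.inl (a e)) 0 :: (pre (s₀ e) (R (Sum.inl (a e)) (s₀ e)) ++ B e)) ++
            [R (Sum.inr (b e)) (s₁ e)] := by
        simp
      rw [h2] at h1
      have h3 := ipath_back (s := s₁ e) (c := R (Sum.inr (b e)) 0) h1
        (fun h => by rw [h]) (fun h => hR0 _ _ h) (fun h => by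
          intro v hv c hc
          rw [List.mem_singleton] at hc
          subst hc
          rw [List.mem_cons, List.mem_append, mem_pre] at hv
          rcases hv with rfl | ⟨_, rfl⟩ | hv
          · exact hRR _ _ (by simp) _ _
          · exact hRR _ _ (by simp) _ _
          · have := hBR e (Sum.inr (b e)) 0 (fun hh => by cases (hinj e _ _ hh).1)
              (fun hh => h (hinj' e _ _ hh).2.symm) v hv
            exact ⟨this.1.symm, fun hh => this.2 hh.symm⟩)
      have h4 : (R (Sum.inl (a e)) 0 :: (pre (s₀ e) (R (Sum.inl (a e)) (s₀ e)) ++ B e)) ++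
          (pre (s₁ e) (R (Sum.inr (b e)) (s₁ e)) ++ [R (Sum.inr (b e)) 0]) =
          R (Sum.inl (a e)) 0 :: (p e ++ [R (Sum.inr (b e)) 0]) := by
        simp [hp]
      rw [h4] at h3
      exact h3
    · -- the length
      intro e
      obtain ⟨_, hlen, _⟩ := hB e (mem_univ _)
      have h1 : (p e).length = (if s₀ e = 0 then 0 else 1) + ((B e).length +
          (if s₁ e = 0 then 0 else 1)) := by
        simp only [hp, List.length_append, pre]
        split_ifs <;> simp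
      rw [h1]
      have h2 : (if s₀ e = 0 then 0 else 1) ≤ 1 := by split_ifs <;> omega
      have h3 : (if s₁ e = 0 then 0 else 1) ≤ 1 := by split_ifs <;> omega
      generalize (if s₀ e = 0 then 0 else 1) = c₀ at *
      generalize (if s₁ e = 0 then 0 else 1) = c₁ at *
      rcases hq with rfl | rfl
      · omega
      · omega
    · intro e i hi
      exact hcent e _ (fun h => hi (Sum.inl.inj h)) (by simp)
    · intro e i hi
      exact hcent e _ (by simp) (fun h => hi (Sum.inr.inj h))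
    · intro e e' hee v hv w hw
      have key0 : ∀ v, s₀ e ≠ 0 → s₀ e' ≠ 0 → v = R (Sum.inl (a e)) (s₀ e) →
          v ≠ R (Sum.inl (a e')) (s₀ e') ∧ ¬ F.Adj v (R (Sum.inl (a e')) (s₀ e')) := by
        rintro v h1 h2 rfl
        by_cases haa : a e = a e'
        · rw [← haa]
          exact hR12 _ _ _ h1 h2 (fun h => hee (hs₀ e e' haa h))
        · exact hRR _ _ (fun h => haa (Sum.inl.inj h)) _ _
      have key1 : ∀ v, s₁ e ≠ 0 → s₁ e' ≠ 0 → v = R (Sum.inr (b e)) (s₁ e) →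
          v ≠ R (Sum.inr (b e')) (s₁ e') ∧ ¬ F.Adj v (R (Sum.inr (b e')) (s₁ e')) := by
        rintro v h1 h2 rfl
        by_cases haa : b e = b e'
        · rw [← haa]
          exact hR12 _ _ _ h1 h2 (fun h => hee (hs₁ e e' haa h))
        · exact hRR _ _ (fun h => haa (Sum.inr.inj h)) _ _
      have hne0 : ∀ e e', e ≠ e' → H (Sum.inl (a e)) (π (Sum.inl (a e)) (s₀ e)) ≠ h e' :=
        fun e e' hee h => hee (hs₀ e e' (Sum.inl.inj (hinj e' _ _ h).1) (hinj e' _ _ h).2)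
      have hne1 : ∀ e e', e ≠ e' → H (Sum.inr (b e)) (π (Sum.inr (b e)) (s₁ e)) ≠ h' e' :=
        fun e e' hee h => hee (hs₁ e e' (Sum.inr.inj (hinj' e' _ _ h).1) (hinj' e' _ _ h).2)
      have hne2 : ∀ e e', H (Sum.inl (a e)) (π (Sum.inl (a e)) (s₀ e)) ≠ h' e' :=
        fun e e' h => by cases (hinj' e' _ _ h).1
      have hne3 : ∀ e e', H (Sum.inr (b e)) (π (Sum.inr (b e)) (s₁ e)) ≠ h e' :=
        fun e e' h => by cases (hinj e' _ _ h).1
      rcases hmemp e v hv with ⟨h1, h2⟩ | hv | ⟨h1, h2⟩ <;>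
        rcases hmemp e' w hw with ⟨k1, k2⟩ | hw | ⟨k1, k2⟩
      · rw [k2]
        exact key0 v h1 k1 h2
      · rw [h2]
        exact hBR e' _ _ (hne0 e e' hee) (hne2 e e') w hw
      · rw [h2, k2]
        exact hRR _ _ (by simp) _ _
      · rw [k2]
        have := hBR e _ _ (hne0 e' e (Ne.symm hee)) (hne2 e' e) v hv
        exact ⟨this.1.symm, fun hh => this.2 hh.symm⟩
      · exact hBB e e' hee v hv w hw
      · rw [k2]
        have := hBR e _ _ (hne3 e' e) (hne1 e' e (Ne.symm hee)) v hv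
        exact ⟨this.1.symm, fun hh => this.2 hh.symm⟩
      · rw [h2, k2]
        exact hRR _ _ (by simp) _ _
      · rw [h2]
        exact hBR e' _ _ (hne3 e e') (hne1 e e' hee) w hw
      · rw [k2]
        exact key1 v h1 k1 h2
  · -- the number of vertices outside of the hubs
    refine le_trans Finset.card_image_le (le_trans (Finset.card_union_le _ _) ?_)
    have h3 : ((univ : Finset ε).biUnion U').card ≤ (univ : Finset ε).card * 50 := by
      apply Finset.card_biUnion_le_card_mul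
      intro j hj
      exact (hB j hj).1
    rw [Finset.card_univ] at h3
    omega
  · intro i
    exact Finset.mem_image.2 ⟨(H (Sum.inl i) (π (Sum.inl i) 0), x (Sum.inl i) (π (Sum.inl i) 0)),
      Finset.mem_union_left _ ((hmemU _).2 ⟨_, _, rfl⟩), rfl⟩
  · intro i
    exact Finset.mem_image.2 ⟨(H (Sum.inr i) (π (Sum.inr i) 0), x (Sum.inr i) (π (Sum.inr i) 0)),
      Finset.mem_union_left _ ((hmemU _).2 ⟨_, _, rfl⟩), rfl⟩
  · intro e v hv
    rcases hmemp e v hv with ⟨_, rfl⟩ | hv | ⟨_, rfl⟩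
    · exact Or.inl (Finset.mem_image.2 ⟨(H _ _, x _ _),
        Finset.mem_union_left _ ((hmemU _).2 ⟨_, _, rfl⟩), rfl⟩)
    · obtain ⟨_, _, _, h3, _⟩ := hB e (mem_univ _)
      rcases h3 v hv with ⟨u, hu, rfl⟩ | h | h | ⟨j, h⟩
      · exact Or.inl (Finset.mem_image.2 ⟨u, Finset.mem_union_right _
          (Finset.mem_biUnion.2 ⟨e, mem_univ _, hu⟩), rfl⟩)
      · exact Or.inr ⟨_, h⟩
      · exact Or.inr ⟨_, h⟩
      · exact Or.inr ⟨_, h⟩
    · exact Or.inl (Finset.mem_image.2 ⟨(H _ _, x _ _),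
        Finset.mem_union_left _ ((hmemU _).2 ⟨_, _, rfl⟩), rfl⟩)

theorem W1 {ι₀ ι₁ ε : Type} [Fintype ι₀] [Fintype ι₁] [Fintype ε] (a : ε → ι₀) (b : ε → ι₁)
    (ha : ∀ i, (univ.filter fun e => a e = i).card ≤ 3)
    (hb : ∀ i, (univ.filter fun e => b e = i).card ≤ 3) (q : ℕ) (hq : q = 2 ∨ q = 3) :
    ∃ (M K : ℕ) (C : ℝ), 1 ≤ C ∧ ∀ (V : Type) (F : SimpleGraph V) (I Q : Fin M → Finset V)
      (f : Fin M → V → V) (ξ : ℝ) (n : ℕ), 0 < ξ → 1 ≤ n →
        Sys1 F I Q f ξ (ξ / C) (ξ / C) n → Found F a b q K I := by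
  set m : ℕ := Fintype.card ((ι₀ ⊕ ι₁) × Fin 3 ⊕ ε × Fin 9) with hm
  set g : ((ι₀ ⊕ ι₁) × Fin 3 ⊕ ε × Fin 9) ≃ Fin m := Fintype.equivFin _ with hg
  set K : ℕ := 3 * Fintype.card (ι₀ ⊕ ι₁) + 50 * Fintype.card ε with hK
  have hq0 : 0 < q := by omega
  have hqR : (1 : ℝ) ≤ q := by exact_mod_cast hq0
  have hKR : (0 : ℝ) ≤ K := Nat.cast_nonneg K
  refine ⟨q * m, K, 2 * q * (K + 54), by nlinarith, ?_⟩
  intro V F I Q f ξ n hξ hn S
  set C : ℝ := 2 * q * (K + 54) with hC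
  have hCpos : 0 < C := by
    rw [hC]
    positivity
  have hlam : 0 < ξ / C := div_pos hξ hCpos
  obtain ⟨r, σ, Qs, hr, hσ, Sr⟩ := exists_sys1r F q m hq0 I Q f ξ (ξ / C) (ξ / C) n (by
    rw [← mul_div_assoc, div_le_iff₀ hCpos]
    rw [hC]
    nlinarith [mul_pos hξ hCpos, mul_nonneg hξ.le hKR, mul_nonneg hξ.le (sub_nonneg.2 hqR),
      mul_nonneg (mul_nonneg hξ.le (sub_nonneg.2 hqR)) hKR]) S
  have T := Sr.reindex g g.injective
  have hsm : (4 + (K + 50 : ℝ)) * (ξ / C) = ξ / (2 * q) := by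
    rw [hC]
    have h1 : (K + 54 : ℝ) ≠ 0 := by positivity
    have h2 : (q : ℝ) ≠ 0 := by positivity
    field_simp
    ring
  have hsmall2 : 4 * (ξ / C) + (K + 50 : ℝ) * (ξ / C) ≤ ξ / (2 * q) := by
    rw [← hsm]
    apply le_of_eq
    ring
  have hsmall1 : 4 * (ξ / C) + (K + 5 : ℝ) * (ξ / C) ≤ ξ / (2 * q) := by
    nlinarith
  obtain ⟨γ, f₀, f₁, p, W₀, h1, h2, h3, h4, h5, h6, h7⟩ := W1_core a b ha hb q hq F _ _ _ _ r hr
    ξ _ _ n K hn hlam hξ T hsmall1 hsmall2 le_rfl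
  refine ⟨γ, f₀, f₁, p, W₀, h1, h2, h3, h4, h5, h6, fun e v hv => ?_⟩
  rcases h7 e v hv with h | ⟨l, h⟩
  · exact Or.inl h
  · exact Or.inr ⟨_, h⟩

end Pool.Agent.Helper32.PD
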